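import Pool.Agent.H93.CP.Targets

/-!
Row HCO of cpt_modules: continuous maps to `HC K G`.
-/

set_option autoImplicit false

open Set Filter Topology Pool.Agent.H93.CP

namespace Pool.Agent.H33.CPT

theorem pf_HCO : T_HCO := by
  intro Z K G _ _ _ _ _ F h1 h2 h3
  rw [continuous_induced_rng]
  refine Continuous.prodMk ?_ (Continuous.prodMk ?_ ?_)
  · exact (ContinuousMap.curry ⟨fun p : Z × K => (F p.1).h p.2, h1⟩).continuous
  · exact (ContinuousMap.curry ⟨fun p : Z × K => (F p.1).h.symm p.2, h2⟩).continuous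
  · exact (ContinuousMap.curry ⟨fun p : Z × K => (F p.1).c p.2, h3⟩).continuous

end Pool.Agent.H33.CPT
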