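import Pool.Agent.H93.CP.Targets

/-!
Row HPO of cpt_modules: `HC K G` is Polish.
-/

set_option autoImplicit false

open Set Filter Topology Pool.Agent.H93.CP

namespace Pool.Agent.H33.CPT

/-- the space of continuous maps from a compact metrizable space to a Polish space is Polish -/
theorem hpo_polish (K G : Type) [TopologicalSpace K] [CompactSpace K] [T2Space K]
    [SecondCountableTopology K] [TopologicalSpace G] [PolishSpace G] : PolishSpace C(K, G) := by
  let := TopologicalSpace.upgradeIsCompletelyMetrizable G
  infer_instance

/-- the map which defines the topology -/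
def hpo_map (K G : Type) [TopologicalSpace K] [TopologicalSpace G] (a : HC K G) :
    C(K, K) × C(K, K) × C(K, G) :=
  ((⟨a.h, a.h.continuous⟩ : C(K, K)), (⟨a.h.symm, a.h.symm.continuous⟩ : C(K, K)), a.c)

theorem pf_HPO : T_HPO := by
  intro K G _ _ _ _ _ _ _ _
  have : PolishSpace K := by
    have := TopologicalSpace.metrizableSpace_of_t3_secondCountable K
    let := TopologicalSpace.metrizableSpaceMetric K
    infer_instance
  have := hpo_polish K K
  have := hpo_polish K G
  have hemb : IsClosedEmbedding (hpo_map K G) := by
    refine ⟨⟨⟨rfl⟩, ?_⟩, ?_⟩
    · intro a b hab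
      have e1 := congrArg Prod.fst hab
      have e3 := congrArg (fun p => p.2.2) hab
      apply HC.ext
      · ext y
        exact congrArg (fun f : C(K, K) => f y) e1
      · exact e3
    · have hrange : range (hpo_map K G) =
          {p : C(K, K) × C(K, K) × C(K, G) | p.1.comp p.2.1 = ContinuousMap.id K ∧
            p.2.1.comp p.1 = ContinuousMap.id K} := by
        ext p
        constructor
        · rintro ⟨a, rfl⟩
          constructor
          · ext y
            exact a.h.apply_symm_apply y
          · ext y
            exact a.h.symm_apply_apply y
        · rintro ⟨e1, e2⟩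
          refine ⟨⟨⟨⟨p.1, p.2.1, fun y => ?_, fun y => ?_⟩, p.1.continuous, p.2.1.continuous⟩,
            p.2.2⟩, ?_⟩
          · exact congrArg (fun f : C(K, K) => f y) e2
          · exact congrArg (fun f : C(K, K) => f y) e1
          · rfl
      rw [hrange]
      refine IsClosed.inter ?_ ?_
      · exact isClosed_eq (ContinuousMap.continuous_comp'.comp
          (Continuous.prodMk (continuous_fst.comp continuous_snd) continuous_fst)) continuous_const
      · exact isClosed_eq (ContinuousMap.continuous_comp'.comp
          (Continuous.prodMk continuous_fst (continuous_fst.comp continuous_snd))) continuous_const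
  exact hemb.polishSpace

end Pool.Agent.H33.CPT
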