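import Pool.Agent.H93.CP.Targets

/-!
Row PRP of cpt_modules: replacement of initial words.
-/

set_option autoImplicit false

open Set Filter Topology Pool.Agent.H93.CP

namespace Pool.Agent.H33.CPT

variable {G : Type} {S : Gr G}

theorem prp_lev (S : Gr G) : ∀ (w : List S.E) (a : S.O), S.Leg a w → S.lev a ≤ S.lev (S.fin a w)
  | [], _, _ => le_rfl
  | e :: w, a, h => by
    obtain ⟨h1, h2⟩ := h
    have h3 := prp_lev S w (S.tgt e) h2
    have h4 := S.lev_lt e
    rw [h1] at h4
    exact h4.le.trans h3

theorem prp_pre {y : S.Path} {u w : List S.E} (h : u <+: w) (hw : S.Mem w y) : S.Mem u y :=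
  y.2.pre u w h hw

theorem prp_char {r r' : List S.E} {y z : S.Path} (h : S.Rep r r' y z) (w : List S.E) :
    S.Mem w z ↔ (w <+: r' ∨ ∃ t, w = r' ++ t ∧ S.Mem (r ++ t) y) := by
  constructor
  · intro hw
    rcases z.2.lin w r' hw h.2.1 with h1 | h1
    · exact Or.inl h1
    · obtain ⟨t, rfl⟩ := h1
      exact Or.inr ⟨t, rfl, (h.2.2 t).1 hw⟩
  · rintro (h1 | ⟨t, rfl, ht⟩)
    · exact prp_pre h1 h.2.1
    · exact (h.2.2 t).2 ht

theorem prp_bdd {r r' : List S.E} {y z : S.Path} {l : ℕ}
    (hL : ∀ a u w, S.Leg a (u ++ w) ↔ S.Leg a u ∧ S.Leg (S.fin a u) w)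
    (hF : ∀ a u w, S.fin a (u ++ w) = S.fin (S.fin a u) w)
    (he : S.fin S.root r = S.fin S.root r') (h : S.Rep r r' y z) (hb : S.Bdd l y) :
    S.Bdd l z := by
  intro w hw
  rcases (prp_char h w).1 hw with h1 | ⟨t, rfl, ht⟩
  · obtain ⟨s, rfl⟩ := h1
    have h2 := z.2.leg _ h.2.1
    rw [hL] at h2
    have h3 := prp_lev S s _ h2.2
    rw [← hF] at h3
    have h4 := hb r h.1
    rw [he] at h4
    exact h3.trans h4
  · rw [hF, ← he, ← hF]
    exact hb _ ht

theorem pf_PRP (hPWD : T_PWD) : T_PRP := by
  intro G S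
  obtain ⟨-, -, -, -, -, hL, hF, -⟩ := hPWD G S
  refine ⟨?_, ?_, ?_, ?_, ?_, ?_, ?_⟩
  · intro r r' y hr hr' he
    classical
    let z0 : List S.E → Bool := fun w => decide (w <+: r' ∨ ∃ t, w = r' ++ t ∧ S.Mem (r ++ t) y)
    have hz0 : ∀ w, z0 w = true ↔ (w <+: r' ∨ ∃ t, w = r' ++ t ∧ S.Mem (r ++ t) y) := by
      intro w
      exact decide_eq_true_iff
    have hP : S.IsPath z0 := by
      refine ⟨?_, ?_, ?_, ?_⟩
      · rw [hz0]
        exact Or.inl List.nil_prefix
      · intro u w huw hw
        rw [hz0] at hw ⊢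
        rcases hw with h1 | ⟨t, rfl, ht⟩
        · exact Or.inl (huw.trans h1)
        · rcases List.prefix_or_prefix_of_prefix huw (List.prefix_append r' t) with h1 | h1
          · exact Or.inl h1
          · obtain ⟨s, rfl⟩ := h1
            rw [List.prefix_append_right_inj] at huw
            refine Or.inr ⟨s, rfl, ?_⟩
            exact prp_pre ((List.prefix_append_right_inj r).2 huw) ht
      · intro w hw
        rw [hz0] at hw
        rcases hw with h1 | ⟨t, rfl, ht⟩
        · obtain ⟨s, rfl⟩ := h1
          exact ((hL _ _ _).1 hr').1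
        · rw [hL]
          refine ⟨hr', ?_⟩
          have h2 := y.2.leg _ ht
          rw [hL, he] at h2
          exact h2.2
      · intro u w hu hw
        rw [hz0] at hu hw
        rcases hu with h1 | ⟨t, rfl, ht⟩
        · rcases hw with h2 | ⟨s, rfl, hs⟩
          · exact List.prefix_or_prefix_of_prefix h1 h2
          · exact Or.inl (h1.trans (List.prefix_append r' s))
        · rcases hw with h2 | ⟨s, rfl, hs⟩
          · exact Or.inr (h2.trans (List.prefix_append r' t))
          · rcases y.2.lin _ _ ht hs with h3 | h3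
            · rw [List.prefix_append_right_inj] at h3
              exact Or.inl ((List.prefix_append_right_inj r').2 h3)
            · rw [List.prefix_append_right_inj] at h3
              exact Or.inr ((List.prefix_append_right_inj r').2 h3)
    refine ⟨⟨z0, hP⟩, hr, ?_, ?_⟩
    · exact (hz0 r').2 (Or.inl (List.prefix_rfl))
    · intro t
      change z0 (r' ++ t) = true ↔ _
      rw [hz0]
      constructor
      · rintro (h1 | ⟨s, hs, hm⟩)
        · have h2 := h1.length_le
          rw [List.length_append] at h2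
          have h3 : t = [] := List.eq_nil_of_length_eq_zero (by omega)
          rw [h3, List.append_nil]
          exact hr
        · rw [List.append_cancel_left hs]
          exact hm
      · intro hm
        exact Or.inr ⟨t, rfl, hm⟩
  · intro r r' y z z' h h'
    apply Subtype.ext
    funext w
    rw [Bool.eq_iff_iff]
    exact (prp_char h w).trans (prp_char h' w).symm
  · intro r r' y z h
    exact ⟨h.2.1, h.1, fun t => (h.2.2 t).symm⟩
  · intro r r' r'' y z x h h'
    exact ⟨h.1, h'.2.1, fun t => (h'.2.2 t).trans (h.2.2 t)⟩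
  · intro r r' t y z h ht
    refine ⟨ht, (h.2.2 t).2 ht, fun s => ?_⟩
    rw [List.append_assoc, List.append_assoc]
    exact h.2.2 (t ++ s)
  · intro r r' y z l he h
    constructor
    · intro hb
      exact prp_bdd hL hF he.symm ⟨h.2.1, h.1, fun t => (h.2.2 t).symm⟩ hb
    · intro hb
      exact prp_bdd hL hF he h hb
  · intro r r' w y z h hlen
    constructor
    · intro hw
      rcases z.2.lin w r' hw h.2.1 with h1 | h1
      · exact h1
      · rw [h1.eq_of_length_le hlen]
    · intro hw
      exact prp_pre hw h.2.1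

end Pool.Agent.H33.CPT
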